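import Mathlib

set_option autoImplicit false
set_option maxHeartbeats 400000

namespace Pool.Agent.Results.MP_f3891b_al.Order605

/-- The subracks of the conjugation rack of `G`, ordered by inclusion. -/
abbrev Subracks (G : Type) [Group G] : Type :=
  {S : Set G // ∀ x ∈ S, ∀ y ∈ S, x * y * x⁻¹ ∈ S}

def w (i : ZMod 5) : ZMod 11 := 3 ^ i.val

theorem w_add : ∀ i j, w (i + j) = w i * w j := by decide
theorem w_zero : w 0 = 1 := by decide

@[ext] structure Gk (k : ZMod 5) where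
  x : ZMod 11
  y : ZMod 11
  i : ZMod 5
  deriving DecidableEq, Fintype

variable {k : ZMod 5}

instance : Mul (Gk k) := ⟨fun g h => ⟨g.x + w g.i * h.x, g.y + w (k * g.i) * h.y, g.i + h.i⟩⟩
instance : One (Gk k) := ⟨⟨0, 0, 0⟩⟩
instance : Inv (Gk k) := ⟨fun g => ⟨-(w (-g.i) * g.x), -(w (-(k * g.i)) * g.y), -g.i⟩⟩

theorem mul_def (g h : Gk k) :
    g * h = ⟨g.x + w g.i * h.x, g.y + w (k * g.i) * h.y, g.i + h.i⟩ := rfl
theorem one_def : (1 : Gk k) = ⟨0, 0, 0⟩ := rfl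
theorem inv_def (g : Gk k) : g⁻¹ = ⟨-(w (-g.i) * g.x), -(w (-(k * g.i)) * g.y), -g.i⟩ := rfl

instance : Group (Gk k) := Group.ofLeftAxioms
  (fun a b c => by
    ext
    · simp only [mul_def, w_add]; ring
    · simp only [mul_def, w_add, mul_add]; ring
    · simp only [mul_def]; ring)
  (fun a => by ext <;> simp [mul_def, one_def, w_zero])
  (fun a => by ext <;> simp [mul_def, one_def, inv_def])

theorem w_neg (i : ZMod 5) : w i * w (-i) = 1 := by rw [← w_add]; simp [w_zero]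

theorem conj_def (g h : Gk k) : g * h * g⁻¹ =
    ⟨(1 - w h.i) * g.x + w g.i * h.x, (1 - w (k * h.i)) * g.y + w (k * g.i) * h.y, h.i⟩ := by
  ext
  · simp only [mul_def, inv_def, w_add]
    linear_combination (-(w h.i * g.x)) * w_neg g.i
  · simp only [mul_def, inv_def, w_add, mul_add]
    linear_combination (-(w (k * h.i) * g.y)) * w_neg (k * g.i)
  · simp [mul_def, inv_def]

theorem pow_V (a b : ZMod 11) (n : ℕ) : (⟨a, b, 0⟩ : Gk k) ^ n = ⟨n * a, n * b, 0⟩ := by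
  induction n with
  | zero => simp [one_def]
  | succ n ih =>
    rw [pow_succ, ih, mul_def]
    ext <;> simp [w_zero] <;> ring

/-- elements whose conjugation preserves `S` -/
def Nm (S : Set (Gk k)) : Submonoid (Gk k) where
  carrier := {g | ∀ h ∈ S, g * h * g⁻¹ ∈ S}
  one_mem' := fun h hh => by simpa using hh
  mul_mem' := fun {a b} ha hb h hh => by
    have := ha _ (hb h hh)
    rwa [show a * (b * h * b⁻¹) * a⁻¹ = a * b * h * (a * b)⁻¹ by group] at this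

theorem Nm_inv {S : Set (Gk k)} {g : Gk k} (hg : g ∈ Nm S) : g⁻¹ ∈ Nm S := by
  have h : g⁻¹ = g ^ (orderOf g - 1) := by
    rw [eq_comm, ← mul_eq_one_iff_eq_inv, ← pow_succ, Nat.sub_add_cancel (orderOf_pos g),
      pow_orderOf_eq_one]
  rw [h]
  exact pow_mem hg _

theorem Nm_smul {S : Set (Gk k)} {a b : ZMod 11} (h : (⟨a, b, 0⟩ : Gk k) ∈ Nm S) (c : ZMod 11) :
    (⟨c * a, c * b, 0⟩ : Gk k) ∈ Nm S := by
  have := pow_mem h c.val
  rwa [pow_V, ZMod.natCast_zmod_val] at this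

theorem Nm_add {S : Set (Gk k)} {a b a' b' : ZMod 11} (h : (⟨a, b, 0⟩ : Gk k) ∈ Nm S)
    (h' : (⟨a', b', 0⟩ : Gk k) ∈ Nm S) : (⟨a + a', b + b', 0⟩ : Gk k) ∈ Nm S := by
  have := mul_mem h h'
  simpa [mul_def, w_zero] using this

theorem solve : ∀ c a t : ZMod 11, c ≠ 0 → (a = 0 → t = 0) → ∃ s, s * (c * a) = t := by
  decide +kernel

theorem lemB (hk : ∀ j : ZMod 5, j ≠ 0 → w j ≠ w (k * j) ∧ w j ≠ 1 ∧ w (k * j) ≠ 1)
    {S : Set (Gk k)} (hS : ∀ x ∈ S, ∀ y ∈ S, x * y * x⁻¹ ∈ S) {g h z : Gk k} (hg : g ∈ S)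
    (hh : h ∈ S) (hj : h.i ≠ 0) (hz : z.i = h.i)
    (h1 : (g * h * g⁻¹).x = h.x → z.x = h.x) (h2 : (g * h * g⁻¹).y = h.y → z.y = h.y) :
    z ∈ S := by
  obtain ⟨k1, k2, k3⟩ := hk _ hj
  have hhN : h ∈ Nm S := hS h hh
  obtain ⟨a, ha⟩ : ∃ a, a = (g * h * g⁻¹).x - h.x := ⟨_, rfl⟩
  obtain ⟨b, hb⟩ : ∃ b, b = (g * h * g⁻¹).y - h.y := ⟨_, rfl⟩
  have hu : (⟨a, b, 0⟩ : Gk k) ∈ Nm S := by
    have h3 : g * h * g⁻¹ * h⁻¹ ∈ Nm S := mul_mem (hS _ (hS g hg h hh)) (Nm_inv hhN)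
    have h4 : (⟨a, b, 0⟩ : Gk k) * h = g * h * g⁻¹ := by
      have hi : (g * h * g⁻¹).i = h.i := by rw [conj_def]
      generalize g * h * g⁻¹ = q at ha hb hi
      ext <;> simp [mul_def, w_zero, ha, hb, hi]
    rwa [← h4, mul_inv_cancel_right] at h3
  have hv : (⟨w h.i * a, w (k * h.i) * b, 0⟩ : Gk k) ∈ Nm S := by
    have := mul_mem (mul_mem hhN hu) (Nm_inv hhN)
    simpa [conj_def, w_zero] using this
  have e1 := Nm_add hv (Nm_smul hu (-w (k * h.i)))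
  have e2 := Nm_add hv (Nm_smul hu (-w h.i))
  have : Fact (Nat.Prime 11) := ⟨by norm_num⟩
  obtain ⟨s, hs⟩ := solve ((1 - w h.i) * (w h.i - w (k * h.i))) a (z.x - h.x)
    (mul_ne_zero (sub_ne_zero.2 k2.symm) (sub_ne_zero.2 k1))
    (fun h0 => sub_eq_zero.2 (h1 (sub_eq_zero.1 (ha ▸ h0))))
  obtain ⟨t, ht⟩ := solve ((1 - w (k * h.i)) * (w (k * h.i) - w h.i)) b (z.y - h.y)
    (mul_ne_zero (sub_ne_zero.2 k3.symm) (sub_ne_zero.2 k1.symm))
    (fun h0 => sub_eq_zero.2 (h2 (sub_eq_zero.1 (hb ▸ h0))))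
  have e3 := Nm_add (Nm_smul e1 s) (Nm_smul e2 t) h hh
  rw [conj_def] at e3
  convert e3 using 1
  ext
  · simp only [w_zero]
    linear_combination -hs
  · simp only [mul_zero, w_zero]
    linear_combination -ht
  · exact hz

def F (k k' : ZMod 5) (φ : ZMod 5 → ZMod 11 → ZMod 11) (g : Gk k') : Gk k := ⟨g.x, φ g.i g.y, g.i⟩

theorem pre {k' : ZMod 5} (φ : ZMod 5 → ZMod 11 → ZMod 11)
    (hk : ∀ j : ZMod 5, j ≠ 0 → w j ≠ w (k * j) ∧ w j ≠ 1 ∧ w (k * j) ≠ 1)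
    (c0 : ∀ i y, φ 0 (w (k' * i) * y) = w (k * i) * φ 0 y)
    (c1 : ∀ i j x y, j ≠ 0 → (1 - w (k * j)) * φ i x + w (k * i) * φ j y = φ j y →
      φ j ((1 - w (k' * j)) * x + w (k' * i) * y) = φ j y)
    {S : Set (Gk k)} (hS : ∀ x ∈ S, ∀ y ∈ S, x * y * x⁻¹ ∈ S) :
    ∀ x ∈ F k k' φ ⁻¹' S, ∀ y ∈ F k k' φ ⁻¹' S, x * y * x⁻¹ ∈ F k k' φ ⁻¹' S := by
  intro g hg h hh
  by_cases hj : h.i = 0
  · have := hS _ hg _ hh
    rw [conj_def] at this
    rw [Set.mem_preimage, conj_def]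
    convert this using 1
    ext <;> simp [F, hj, w_zero, c0]
  · refine lemB hk hS hg hh hj ?_ ?_ ?_
    · simp [F, conj_def]
    · simp [F, conj_def]
    · simp only [F, conj_def]
      exact c1 _ _ _ _ hj

def φ1 (i : ZMod 5) (y : ZMod 11) : ZMod 11 := if i = 0 then y ^ 7 else y * (1 + w (2 * i))
def φ2 (i : ZMod 5) (y : ZMod 11) : ZMod 11 := if i = 0 then y ^ 3 else y * (1 + w (2 * i)) ^ 9

theorem φ12 : ∀ i y, φ1 i (φ2 i y) = y := by decide +kernel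
theorem φ21 : ∀ i y, φ2 i (φ1 i y) = y := by decide +kernel

theorem F12 (g : Gk 4) : F 4 2 φ1 (F 2 4 φ2 g) = g := by ext <;> simp [F, φ12]
theorem F21 (g : Gk 2) : F 2 4 φ2 (F 4 2 φ1 g) = g := by ext <;> simp [F, φ21]

def iso : Subracks (Gk 2) ≃o Subracks (Gk 4) where
  toFun S := ⟨F 2 4 φ2 ⁻¹' S.1,
    pre φ2 (by decide +kernel) (by decide +kernel) (by decide +kernel) S.2⟩
  invFun S := ⟨F 4 2 φ1 ⁻¹' S.1,
    pre φ1 (by decide +kernel) (by decide +kernel) (by decide +kernel) S.2⟩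
  left_inv S := by
    ext g
    simp [F21]
  right_inv S := by
    ext g
    simp [F12]
  map_rel_iff' := by
    intro S T
    constructor
    · intro h g hg
      have : F 4 2 φ1 g ∈ F 2 4 φ2 ⁻¹' T.1 := h (by simpa [F21] using hg)
      simpa [F21] using this
    · intro h g hg
      exact h hg

theorem centre (c : Gk 4) (h : ∀ z, c * z = z * c) : c = 1 := by
  have h1 := congrArg Gk.x (h ⟨1, 0, 0⟩)
  have h2 := h ⟨0, 0, 1⟩
  have h3 := congrArg Gk.x h2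
  have h4 := congrArg Gk.y h2
  obtain ⟨x, y, i⟩ := c
  simp only [mul_def, w_zero, mul_one, mul_zero, add_zero, zero_add, one_mul] at h1 h3 h4
  have k1 : ∀ x : ZMod 11, ∀ i, x + w i = 1 + x → i = 0 := by decide +kernel
  have k2 : ∀ x : ZMod 11, x = w 1 * x → x = 0 := by decide +kernel
  have k3 : ∀ x : ZMod 11, x = w 4 * x → x = 0 := by decide +kernel
  rw [one_def, k1 x i h1, k2 x h3, k3 y h4]

theorem pow_i (g : Gk k) (n : ℕ) : (g ^ n).i = n * g.i := by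
  induction n with
  | zero => simp [one_def]
  | succ n ih => rw [pow_succ, mul_def, ih]; simp; ring

theorem prop4 (g v : Gk 4) (hv : v ^ 11 = 1) :
    ∃ n : ℕ, g * v * g⁻¹ * (g⁻¹ * v * g⁻¹⁻¹) = v ^ n := by
  have h1 := pow_i v 11
  rw [hv] at h1
  have k1 : ∀ i : ZMod 5, 0 = ((11 : ℕ) : ZMod 5) * i → i = 0 := by decide
  obtain ⟨x, y, i⟩ := v
  obtain rfl : i = 0 := k1 i h1
  refine ⟨(w g.i + w (-g.i)).val, ?_⟩
  have k2 : ∀ i : ZMod 5, w (4 * i) = w (-i) ∧ w (4 * -i) = w i := by decide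
  rw [conj_def, conj_def, pow_V, mul_def, ZMod.natCast_zmod_val]
  ext
  · simp [w_zero, inv_def]; ring
  · simp only [w_zero, inv_def, mul_zero, (k2 g.i).1, (k2 g.i).2]; ring
  · simp

theorem result : ∃ (G H : Type) (_ : Group G) (_ : Group H), Finite G ∧ Finite H ∧
    Nonempty (Subracks G ≃o Subracks H) ∧
    ¬ ∃ f : G ≃ H, ∀ x y, f (x * y * x⁻¹) = f x * f y * (f x)⁻¹ := by
  refine ⟨Gk 2, Gk 4, inferInstance, inferInstance, inferInstance, inferInstance, ⟨iso⟩, ?_⟩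
  rintro ⟨f, hf⟩
  have hm : ∀ x y, f (x * y) = f x * f y := by
    intro x y
    have h1 : (f x * f y)⁻¹ * f (x * y) = 1 := by
      apply centre
      intro z
      obtain ⟨z, rfl⟩ := f.surjective z
      have h2 := hf (x * y) z
      rw [show x * y * z * (x * y)⁻¹ = x * (y * z * y⁻¹) * x⁻¹ by group, hf, hf] at h2
      calc (f x * f y)⁻¹ * f (x * y) * f z
          = (f x * f y)⁻¹ * (f (x * y) * f z * (f (x * y))⁻¹) * f (x * y) := by group
        _ = _ := by rw [← h2]; group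
    exact (inv_mul_eq_one.1 h1).symm
  let e : Gk 2 ≃* Gk 4 := { f with map_mul' := hm }
  obtain ⟨n, hn⟩ := prop4 (e ⟨0, 0, 1⟩) (e ⟨1, 1, 0⟩) (by
    rw [← map_pow, pow_V, ← map_one e]; congr 1)
  simp only [← map_inv, ← map_mul, ← map_pow, EmbeddingLike.apply_eq_iff_eq] at hn
  rw [pow_V] at hn
  have h1 := congrArg Gk.x hn
  have h2 := congrArg Gk.y hn
  have h3 := h1.trans h2.symm
  revert h3
  decide +kernel

end Pool.Agent.Results.MP_f3891b_al.Order605
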